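import Pool.Agent.Q94.HPE

/-!
# Measures with Hölder continuous potential are dominated by Hausdorff measure

For a bump `φ_r` at scale `r` around `x ∈ Ω`, `|∫ φ_r dμ| ≤ C r^{N-2+β}` by the fundamental solution
identity. At `μ⁺`-almost every point `μ⁻(B_r) = o(μ⁺(B_r))`, which turns this into
`b_{k+1} ≤ B + b_k/2` for `b_k = μ⁺(B_{r_k}) / r_k^{N-2+β}`, `r_k = 2^{-k} r_0`; hence the upper
densities are bounded and `|μ| ≤ C H^{N-2+β}`.
-/

open MeasureTheory Filter Topology Q94.HP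
open scoped ENNReal NNReal

theorem Pool.Agent.Results.MP_19b229_an.Dominated.result (N : ℕ) (hN : 2 ≤ N) (Ω : Set (E N))
    (hΩo : IsOpen Ω) (hΩb : Bornology.IsBounded Ω) (β : ℝ) (hβ0 : 0 < β) (_hβ1 : β < 1)
    (μ : SignedMeasure (E N)) (hμ : μ.totalVariation Ωᶜ = 0) (hpot : HasHolderPotential Ω β μ) :
    (∃ c : ℝ≥0, ∀ A, MeasurableSet A →
      μ.totalVariation A ≤ c * Measure.hausdorffMeasure ((N : ℝ) - 2 + β) A) ∧
    ∃ ν : ℕ → SignedMeasure (E N), (∀ n, (ν n).totalVariation Ωᶜ = 0) ∧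
      (∀ n : ℕ, ∀ A, MeasurableSet A →
        (ν n).totalVariation A ≤ n * Measure.hausdorffMeasure ((N : ℝ) - 2 + β) A) ∧
      Tendsto (fun n => (ν n - μ).totalVariation Set.univ) atTop (𝓝 0) :=
  main hN hΩo hΩb hβ0 hμ hpot
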